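import Mathlib

namespace Pool.Agent.Results.MP_d31508_co.Range

open Finset

open Classical in
/-- Property `P_k`: every `(k+2)`-set contains a vertex with at least `k` neighbours in it. -/
def HasP (k : ℕ) {n : ℕ} (G : SimpleGraph (Fin n)) : Prop :=
  ∀ S : Finset (Fin n), S.card = k + 2 → ∃ v ∈ S, k ≤ (S.filter (fun w => G.Adj v w)).card

/-- `f(n,k)`: the least number of edges of an `n`-vertex graph with property `P_k`. -/
noncomputable def f (n k : ℕ) : ℕ :=
  sInf {m | ∃ G : SimpleGraph (Fin n), HasP k G ∧ G.edgeSet.ncard = m}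

open Classical in
noncomputable def nd {n : ℕ} (H : SimpleGraph (Fin n)) (W : Finset (Fin n)) (v : Fin n) : ℕ :=
  (W.filter (fun w => H.Adj v w)).card

lemma nd_compl {n : ℕ} (G : SimpleGraph (Fin n)) (W : Finset (Fin n)) (v : Fin n) (hv : v ∈ W) :
    nd G W v + nd Gᶜ W v + 1 = W.card := by
  classical
  have h1 := Finset.card_erase_add_one hv
  have h2 := Finset.card_filter_add_card_filter_not (s := W.erase v) (fun w => G.Adj v w)
  have e1 : nd G W v = ((W.erase v).filter (fun w => G.Adj v w)).card := by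
    unfold nd
    congr 1
    ext w
    simp only [Finset.mem_filter, Finset.mem_erase]
    exact ⟨fun h => ⟨⟨h.2.ne', h.1⟩, h.2⟩, fun h => ⟨h.1.2, h.2⟩⟩
  have e2 : nd Gᶜ W v = ((W.erase v).filter (fun w => ¬ G.Adj v w)).card := by
    unfold nd
    congr 1
    ext w
    simp only [Finset.mem_filter, Finset.mem_erase, SimpleGraph.compl_adj]
    exact ⟨fun h => ⟨⟨fun e => h.2.1 e.symm, h.1⟩, h.2.2⟩,
      fun h => ⟨h.1.2, fun e => h.1.1 e.symm, h.2⟩⟩
  omega

lemma hasP_iff {k n : ℕ} (G : SimpleGraph (Fin n)) :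
    HasP k G ↔ ∀ S : Finset (Fin n), S.card = k + 2 → ∃ v ∈ S, nd Gᶜ S v ≤ 1 := by
  constructor
  · intro h S hS
    obtain ⟨v, hv, h1⟩ := h S hS
    have h2 := nd_compl G S v hv
    have h3 : k ≤ nd G S v := h1
    exact ⟨v, hv, by omega⟩
  · intro h S hS
    obtain ⟨v, hv, h1⟩ := h S hS
    have h2 := nd_compl G S v hv
    have h3 : k ≤ nd G S v := by omega
    exact ⟨v, hv, h3⟩

lemma sum_nd {n : ℕ} (G : SimpleGraph (Fin n)) :
    ∑ v, nd G Finset.univ v = 2 * G.edgeSet.ncard := by
  classical
  have h := G.sum_degrees_eq_twice_card_edges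
  rw [← SimpleGraph.coe_edgeFinset, Set.ncard_coe_finset, ← h]
  refine Finset.sum_congr rfl (fun v _ => ?_)
  rw [← SimpleGraph.card_neighborFinset_eq_degree]
  unfold nd
  congr 1
  ext w
  simp

lemma sum_both {n : ℕ} (G : SimpleGraph (Fin n)) :
    2 * G.edgeSet.ncard + ∑ v, nd Gᶜ Finset.univ v + n = n * n := by
  have h : ∑ v : Fin n, (nd G Finset.univ v + nd Gᶜ Finset.univ v + 1) = ∑ _v : Fin n, n :=
    Finset.sum_congr rfl (fun v _ => by
      rw [nd_compl G _ v (Finset.mem_univ v)]; simp)
  rw [Finset.sum_add_distrib, Finset.sum_add_distrib, sum_nd] at h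
  simpa using h

lemma sum_erase {n : ℕ} (H : SimpleGraph (Fin n)) (W : Finset (Fin n)) (v : Fin n) (hv : v ∈ W) :
    ∑ u ∈ W, nd H W u = ∑ u ∈ W.erase v, nd H (W.erase v) u + 2 * nd H W v := by
  classical
  have e : ∀ u ∈ W.erase v, nd H W u = nd H (W.erase v) u + if H.Adj v u then 1 else 0 := by
    intro u _
    unfold nd
    rw [Finset.card_filter, Finset.card_filter, ← Finset.add_sum_erase W _ hv, add_comm]
    congr 1
    by_cases h : H.Adj v u
    · rw [if_pos h, if_pos h.symm]
    · rw [if_neg h, if_neg (fun h' => h h'.symm)]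
  have e2 : ∑ u ∈ W.erase v, (if H.Adj v u then 1 else 0) = nd H W v := by
    unfold nd
    rw [Finset.card_filter, ← Finset.add_sum_erase W _ hv, if_neg (H.irrefl), zero_add]
  rw [← Finset.add_sum_erase W _ hv, Finset.sum_congr rfl e, Finset.sum_add_distrib, e2]
  ring

lemma nd_lt {n : ℕ} (H : SimpleGraph (Fin n)) (W : Finset (Fin n)) (v : Fin n) (hv : v ∈ W) :
    nd H W v + 1 ≤ W.card := by
  have := nd_compl H W v hv
  omega

lemma core {k n : ℕ} (H : SimpleGraph (Fin n))
    (hP : ∀ S : Finset (Fin n), S.card = k + 2 → ∃ v ∈ S, nd H S v ≤ 1) :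
    ∀ (g : ℕ) (W : Finset (Fin n)), W.card = k + 1 + g → (g ≤ 1 ∨ 7 * g ≤ k) →
      ∑ u ∈ W, nd H W u ≤ k * (k + 1) + 2 * g := by
  classical
  intro g
  induction g with
  | zero =>
    intro W hW _
    have := Finset.sum_le_card_nsmul W (fun u => nd H W u) k (fun u hu => by
      have := nd_lt H W u hu
      omega)
    rw [hW, smul_eq_mul] at this
    nlinarith
  | succ g ih =>
    intro W hW hg
    by_cases hex : ∃ v ∈ W, nd H W v ≤ 1
    · obtain ⟨v, hv, h1⟩ := hex
      have h2 := ih (W.erase v) (by rw [Finset.card_erase_of_mem hv, hW]; omega) (by omega)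
      rw [sum_erase H W v hv]
      omega
    · push Not at hex
      have hg1 : 7 * (g + 1) ≤ k := by
        rcases hg with hg | hg
        · obtain ⟨v, hv, h1⟩ := hP W (by omega)
          have := hex v hv
          omega
        · exact hg
      by_contra hcon
      push Not at hcon
      obtain ⟨L, hL⟩ : ∃ L : Finset (Fin n), L = W.filter (fun u => nd H W u ≤ g + 1) := ⟨_, rfl⟩
      have hLW : L ⊆ W := by rw [hL]; exact Finset.filter_subset _ _
      have hsum : ∑ u ∈ W, nd H W u + L.card * k ≤ (k + 2 + g) * (k + 1 + g) := by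
        have h1 : ∑ u ∈ W, (nd H W u + if u ∈ L then k else 0) ≤ W.card • (k + 1 + g) := by
          refine Finset.sum_le_card_nsmul _ _ _ (fun u hu => ?_)
          by_cases h : u ∈ L
          · rw [if_pos h]
            rw [hL] at h
            have := (Finset.mem_filter.1 h).2
            omega
          · rw [if_neg h]
            have := nd_lt H W u hu
            omega
        rw [Finset.sum_add_distrib, Finset.sum_ite_mem, Finset.inter_eq_right.2 hLW,
          Finset.sum_const, smul_eq_mul, smul_eq_mul, hW] at h1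
        have e : k + 1 + (g + 1) = k + 2 + g := by ring
        rw [e] at h1
        exact h1
      have hLc : 3 * L.card ≤ k + 2 := by
        by_contra h
        have h3 : k + 3 ≤ 3 * L.card := by omega
        have h4 := Nat.mul_le_mul_right k h3
        have h5 := Nat.mul_le_mul_right k hg1
        have h6 := Nat.mul_le_mul_right g hg1
        nlinarith
      have hex2 : ∀ u : Fin n, ∃ T : Finset (Fin n), u ∈ W →
          T ⊆ W.filter (fun w => H.Adj u w) ∧ T.card = 2 := by
        intro u
        by_cases hu : u ∈ W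
        · obtain ⟨T, h1, h2⟩ := Finset.exists_subset_card_eq
            (s := W.filter (fun w => H.Adj u w)) (n := 2) (hex u hu)
          exact ⟨T, fun _ => ⟨h1, h2⟩⟩
        · exact ⟨∅, fun h => absurd h hu⟩
      choose T hT using hex2
      have hPc : (L ∪ L.biUnion T).card ≤ k + 2 := by
        have h1 := Finset.card_union_le L (L.biUnion T)
        have h2 := Finset.card_biUnion_le_card_mul L T 2 (fun u hu => (hT u (hLW hu)).2.le)
        omega
      have hPW : L ∪ L.biUnion T ⊆ W := by
        refine Finset.union_subset hLW (Finset.biUnion_subset.2 (fun u hu => ?_))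
        exact (hT u (hLW hu)).1.trans (Finset.filter_subset _ _)
      obtain ⟨S, hS1, hS2, hS3⟩ := Finset.exists_subsuperset_card_eq hPW hPc
        (by rw [hW]; omega)
      obtain ⟨v, hv, h1⟩ := hP S hS3
      by_cases hvL : v ∈ L
      · have h2 : T v ⊆ S.filter (fun w => H.Adj v w) := by
          intro w hw
          refine Finset.mem_filter.2 ⟨hS1 (Finset.mem_union_right _
            (Finset.mem_biUnion.2 ⟨v, hvL, hw⟩)), ?_⟩
          exact (Finset.mem_filter.1 ((hT v (hLW hvL)).1 hw)).2
        have h3 := Finset.card_le_card h2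
        rw [(hT v (hLW hvL)).2] at h3
        have h4 : 2 ≤ nd H S v := h3
        omega
      · have h2 : ¬ nd H W v ≤ g + 1 := fun h => hvL (by
          rw [hL]; exact Finset.mem_filter.2 ⟨hS2 hv, h⟩)
        have h3 : W.filter (fun w => H.Adj v w) ⊆ S.filter (fun w => H.Adj v w) ∪ (W \ S) := by
          intro w hw
          rw [Finset.mem_filter] at hw
          by_cases hwS : w ∈ S
          · exact Finset.mem_union_left _ (Finset.mem_filter.2 ⟨hwS, hw.2⟩)
          · exact Finset.mem_union_right _ (Finset.mem_sdiff.2 ⟨hw.1, hwS⟩)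
        have h4 := (Finset.card_le_card h3).trans (Finset.card_union_le _ _)
        rw [Finset.card_sdiff_of_subset hS2, hW, hS3] at h4
        have h5 : nd H W v ≤ nd H S v + (k + 1 + (g + 1) - (k + 2)) := h4
        omega

lemma construct {k n : ℕ} (hn : k + 2 ≤ n) :
    ∃ G : SimpleGraph (Fin n), HasP k G ∧
      k * (k + 1) + 2 * (n - k - 1) ≤ ∑ v, nd Gᶜ Finset.univ v := by
  classical
  obtain ⟨A, -, hA⟩ := Finset.exists_subset_card_eq (s := (Finset.univ : Finset (Fin n)))
    (n := k + 1) (by simp; omega)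
  obtain ⟨z, hz⟩ : A.Nonempty := Finset.card_pos.1 (by omega)
  obtain ⟨H, hH⟩ : ∃ H : SimpleGraph (Fin n), ∀ x y, H.Adj x y ↔
      x ≠ y ∧ ((x ∈ A ∧ y ∈ A) ∨ x = z ∨ y = z) :=
    ⟨⟨fun x y => x ≠ y ∧ ((x ∈ A ∧ y ∈ A) ∨ x = z ∨ y = z),
      ⟨fun x y h => ⟨h.1.symm, by tauto⟩⟩, ⟨fun x h => h.1 rfl⟩⟩, fun _ _ => Iff.rfl⟩
  refine ⟨Hᶜ, ?_, ?_⟩
  · rw [hasP_iff, compl_compl]
    intro S hS
    have : ¬ S ⊆ A := fun h => by
      have := Finset.card_le_card h
      omega
    obtain ⟨v, hv, hvA⟩ := Finset.not_subset.1 this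
    refine ⟨v, hv, ?_⟩
    have h1 : S.filter (fun w => H.Adj v w) ⊆ {z} := by
      intro w hw
      have h2 := ((hH v w).1 (Finset.mem_filter.1 hw).2).2
      rcases h2 with h2 | h2 | h2
      · exact absurd h2.1 hvA
      · exact absurd (h2 ▸ hz) hvA
      · exact Finset.mem_singleton.2 h2
    have h2 := Finset.card_le_card h1
    rw [Finset.card_singleton] at h2
    exact h2
  · rw [compl_compl]
    have h1 : ∀ v ∈ (Finset.univ : Finset (Fin n)),
        (if v ∈ A then k else 0) + (if v ∈ Aᶜ then 1 else 0) + (if z = v then n - k - 1 else 0)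
          ≤ nd H Finset.univ v := by
      intro v _
      by_cases hv : z = v
      · subst hv
        have h2 : Finset.univ.erase z ⊆ Finset.univ.filter (fun w => H.Adj z w) := by
          intro w hw
          exact Finset.mem_filter.2 ⟨Finset.mem_univ _,
            (hH z w).2 ⟨(Finset.mem_erase.1 hw).1.symm, Or.inr (Or.inl rfl)⟩⟩
        have h3 := Finset.card_le_card h2
        rw [Finset.card_erase_of_mem (Finset.mem_univ z), Finset.card_univ, Fintype.card_fin] at h3
        have h4 : n - 1 ≤ nd H Finset.univ z := h3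
        rw [if_pos hz, if_neg (by simpa using hz), if_pos rfl]
        omega
      · rw [if_neg hv]
        by_cases hvA : v ∈ A
        · have h2 : A.erase v ⊆ Finset.univ.filter (fun w => H.Adj v w) := by
            intro w hw
            exact Finset.mem_filter.2 ⟨Finset.mem_univ _,
              (hH v w).2 ⟨(Finset.mem_erase.1 hw).1.symm, Or.inl ⟨hvA, (Finset.mem_erase.1 hw).2⟩⟩⟩
          have h3 := Finset.card_le_card h2
          rw [Finset.card_erase_of_mem hvA, hA] at h3
          have h4 : k + 1 - 1 ≤ nd H Finset.univ v := h3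
          rw [if_pos hvA, if_neg (by simpa using hvA)]
          omega
        · have h2 : ({z} : Finset (Fin n)) ⊆ Finset.univ.filter (fun w => H.Adj v w) := by
            intro w hw
            rw [Finset.mem_singleton.1 hw]
            exact Finset.mem_filter.2 ⟨Finset.mem_univ _,
              (hH v z).2 ⟨fun h => hv h.symm, Or.inr (Or.inr rfl)⟩⟩
          have h3 := Finset.card_le_card h2
          rw [Finset.card_singleton] at h3
          have h4 : 1 ≤ nd H Finset.univ v := h3
          rw [if_neg hvA, if_pos (Finset.mem_compl.2 hvA)]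
          omega
    have h2 := Finset.sum_le_sum h1
    rw [Finset.sum_add_distrib, Finset.sum_add_distrib, Finset.sum_ite_mem, Finset.sum_ite_mem,
      Finset.univ_inter, Finset.univ_inter, Finset.sum_const, Finset.sum_const,
      Finset.sum_ite_eq, if_pos (Finset.mem_univ z), Finset.card_compl, Fintype.card_fin, hA,
      smul_eq_mul, smul_eq_mul] at h2
    have e : (k + 1) * k = k * (k + 1) := by ring
    omega

lemma two_choose (m : ℕ) : 2 * m.choose 2 + m = m * m := by
  induction m with
  | zero => simp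
  | succ m ih =>
    rw [Nat.choose_succ_succ' m 1, Nat.choose_one_right]
    nlinarith

lemma all_parts (n k : ℕ) (hn : k + 2 ≤ n) :
    f n k + (k + 1).choose 2 + (n - k - 1) ≤ n.choose 2 ∧
    ((n = k + 2 ∨ 7 * (n - k - 1) ≤ k) →
      f n k + (k + 1).choose 2 + (n - k - 1) = n.choose 2) := by
  obtain ⟨G0, hG0, hG1⟩ := construct hn
  have c1 := two_choose n
  have c2 := two_choose (k + 1)
  have c3 : (k + 1) * (k + 1) = k * (k + 1) + (k + 1) := by ring
  have hup : f n k + (k + 1).choose 2 + (n - k - 1) ≤ n.choose 2 := by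
    have h1 : f n k ≤ G0.edgeSet.ncard := Nat.sInf_le ⟨G0, hG0, rfl⟩
    have h2 := sum_both G0
    omega
  refine ⟨hup, fun hr => ?_⟩
  obtain ⟨G, hG, hm⟩ : ∃ G : SimpleGraph (Fin n), HasP k G ∧ G.edgeSet.ncard = f n k :=
    Nat.sInf_mem (s := {m | ∃ G : SimpleGraph (Fin n), HasP k G ∧ G.edgeSet.ncard = m})
      ⟨_, G0, hG0, rfl⟩
  have h1 := core Gᶜ ((hasP_iff G).1 hG) (n - k - 1) Finset.univ (by simp; omega) (by omega)
  have h2 := sum_both G
  omega

theorem result (n k : ℕ) (hn : k + 2 ≤ n) (hr : n = k + 2 ∨ 7 * (n - k - 1) ≤ k) :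
    f n k + (k + 1).choose 2 + (n - k - 1) = n.choose 2 :=
  (all_parts n k hn).2 hr

end Pool.Agent.Results.MP_d31508_co.Range
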